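import Mathlib

/-!
The Zak transform and the symbol of a dilation equation.
-/

set_option autoImplicit false

namespace Pool.Agent.H405Z.Zak

open Complex

/-- The Zak transform `Zf(t, ξ) = ∑_k f(t+k) e^{2 π i k ξ}`. -/
noncomputable def zak (f : ℝ → ℂ) (t ξ : ℝ) : ℂ :=
  ∑' k : ℤ, f (t + k) * exp (2 * Real.pi * I * k * ξ)

/-- The symbol `D(ξ) = ∑_k d_k e^{2 π i k ξ}` of a finitely supported sequence `d`. -/
noncomputable def symbol (d : ℤ →₀ ℂ) (ξ : ℝ) : ℂ :=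
  ∑ k ∈ d.support, d k * exp (2 * Real.pi * I * k * ξ)

/-- The dilation equation `φ(t/2) = ∑_k d_k φ(t-k)` for all real `t`. -/
def Dilation (φ : ℝ → ℂ) (d : ℤ →₀ ℂ) : Prop :=
  ∀ t : ℝ, φ (t / 2) = ∑ k ∈ d.support, d k * φ (t - k)

end Pool.Agent.H405Z.Zak
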