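import Pool.Agent.H405Z.Zak.Defs

/-!
The trapezoid `h(t+1) + h(t) + h(t-1)`, with `h` the hat function.
-/

set_option autoImplicit false

namespace Pool.Agent.H405Z.Zak

open Complex

/-- The hat function. -/
noncomputable def hat (t : ℝ) : ℝ := max 0 (1 - |t|)

theorem hat_eq (t : ℝ) : hat t = (|t + 1| + |t - 1| - 2 * |t|) / 2 := by
  unfold hat
  rcases abs_cases (t + 1) with h1 | h1 <;> rcases abs_cases t with h2 | h2 <;>
    rcases abs_cases (t - 1) with h3 | h3 <;> rw [max_def] <;> split_ifs <;> linarith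

theorem hat_half (t : ℝ) : hat (t / 2) = hat (t + 1) / 2 + hat t + hat (t - 1) / 2 := by
  simp only [hat_eq]
  rw [show t / 2 + 1 = (t + 1 + 1) / 2 by ring, show t / 2 - 1 = (t - 1 - 1) / 2 by ring,
    abs_div, abs_div, abs_div, abs_two, add_sub_cancel_right, sub_add_cancel]
  ring

theorem hat_eq_zero {t : ℝ} (h : 1 ≤ |t|) : hat t = 0 := max_eq_left (by linarith)

theorem hat_nonneg (t : ℝ) : 0 ≤ hat t := le_max_left _ _

theorem continuous_hat : Continuous hat := by unfold hat; fun_prop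

/-- The trapezoid. -/
noncomputable def trap (t : ℝ) : ℝ := hat (t + 1) + hat t + hat (t - 1)

/-- The coefficients. -/
noncomputable def dd : ℤ →₀ ℂ :=
  Finsupp.onFinset {-2, -1, 1, 2} (fun k => if k ∈ ({-2, -1, 1, 2} : Finset ℤ) then 1 / 2 else 0)
    (by intro k hk; by_contra h; simp only [h, if_false] at hk; exact hk rfl)

theorem sum_dd (g : ℤ → ℂ) :
    ∑ k ∈ dd.support, dd k * g k = (g (-2) + g (-1) + g 1 + g 2) / 2 := by
  have : ∑ k ∈ dd.support, dd k * g k = ∑ k ∈ ({-2, -1, 1, 2} : Finset ℤ), dd k * g k := by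
    refine Finset.sum_subset Finsupp.support_onFinset_subset fun k _ hk => ?_
    rw [Finsupp.notMem_support_iff.mp hk, zero_mul]
  rw [this]
  simp [dd]
  ring

theorem dilation : Dilation (fun t => (trap t : ℂ)) dd := by
  intro t
  rw [sum_dd (fun k => (trap (t - k) : ℂ))]
  have a := hat_half (t + 2)
  have b := hat_half t
  have c := hat_half (t - 2)
  have e : trap (t / 2) = (trap (t - (-2 : ℤ)) + trap (t - (-1 : ℤ)) + trap (t - (1 : ℤ))
      + trap (t - (2 : ℤ))) / 2 := by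
    unfold trap
    push_cast
    rw [show t / 2 + 1 = (t + 2) / 2 by ring, show t / 2 - 1 = (t - 2) / 2 by ring, a, b, c]
    ring_nf
  change (trap (t / 2) : ℂ) = _
  rw [e]
  push_cast
  ring

theorem symbol_eq (ξ : ℝ) : symbol dd ξ
    = ((exp (2 * Real.pi * I * ξ))⁻¹ ^ 2 + (exp (2 * Real.pi * I * ξ))⁻¹
      + exp (2 * Real.pi * I * ξ) + exp (2 * Real.pi * I * ξ) ^ 2) / 2 := by
  unfold symbol
  rw [sum_dd (fun k => exp (2 * Real.pi * I * k * ξ))]
  simp only [← exp_neg, ← exp_nat_mul]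
  push_cast
  ring_nf

theorem exp_half (ξ : ℝ) : exp (2 * Real.pi * I * ((ξ + 1 / 2 : ℝ) : ℂ))
    = -exp (2 * Real.pi * I * ξ) := by
  push_cast
  rw [show (2 * Real.pi * I * (ξ + 1 / 2) : ℂ) = 2 * Real.pi * I * ξ + Real.pi * I by ring, exp_add,
    exp_pi_mul_I]
  ring

theorem no_sym (ξ : ℝ) : ¬ (symbol dd ξ = 0 ∧ symbol dd (ξ + 1 / 2) = 0) := by
  rintro ⟨h1, h2⟩
  rw [symbol_eq] at h1 h2
  rw [exp_half, inv_neg] at h2
  have h0 := exp_ne_zero (2 * Real.pi * I * ξ)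
  set z := exp (2 * Real.pi * I * ξ)
  have hz : z⁻¹ * z = 1 := inv_mul_cancel₀ h0
  set y := z⁻¹
  have : (2 : ℂ) = 0 := by
    linear_combination (y + z) * (h1 - h2) - (h1 + h2) - 2 * hz
  norm_num at this

theorem summable_hat (t : ℝ) (g : ℤ → ℂ) : Summable fun k : ℤ => (hat (t + k) : ℂ) * g k := by
  apply summable_of_ne_finset_zero (s := Finset.Icc (⌊-t⌋ - 1) (⌊-t⌋ + 2))
  intro k hk
  have h1 := Int.floor_le (-t)
  have h2 := Int.lt_floor_add_one (-t)
  rw [Finset.mem_Icc, not_and_or, not_le, not_le] at hk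
  rw [hat_eq_zero, ofReal_zero, zero_mul]
  rcases hk with hk | hk
  · have : (k : ℝ) < ⌊-t⌋ - 1 := by exact_mod_cast hk
    rw [abs_of_neg (by linarith)]; linarith
  · have : (⌊-t⌋ : ℝ) + 2 < k := by exact_mod_cast hk
    rw [abs_of_pos (by linarith)]; linarith

theorem zak_third (t : ℝ) : zak (fun t => (trap t : ℂ)) t (1 / 3) = 0 := by
  unfold zak
  set e : ℤ → ℂ := fun k => exp (2 * Real.pi * I * k * ((1 / 3 : ℝ) : ℂ)) with he
  have hadd : ∀ a b : ℤ, e (a + b) = e a * e b := by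
    intro a b
    simp only [he, ← exp_add]
    push_cast
    ring_nf
  have h3 : e 1 * e 1 * e 1 = 1 := by
    rw [← hadd, ← hadd, he]
    push_cast
    rw [show (2 * Real.pi * I * 3 * (1 / 3) : ℂ) = 2 * Real.pi * I by ring, exp_two_pi_mul_I]
  have hinv : e (-1) * e 1 = 1 := by rw [← hadd]; simp [he]
  have hne : e 1 - 1 ≠ 0 := by
    rw [sub_ne_zero]
    intro h
    obtain ⟨n, hn⟩ := exp_eq_one_iff.mp h
    have h2 : (2 * Real.pi * I : ℂ) ≠ 0 := two_pi_I_ne_zero
    have : (3 * n : ℂ) = 1 := by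
      apply mul_left_cancel₀ h2
      push_cast at hn
      linear_combination (-3) * hn
    have : (3 * n : ℤ) = 1 := by exact_mod_cast this
    omega
  have hsum : e (-1) + 1 + e 1 = 0 := by
    apply mul_left_cancel₀ hne
    linear_combination (1 - e 1 * e 1) * hinv + e (-1) * h3
  have s0 := summable_hat t e
  have s1 := summable_hat (t + 1) e
  have s2 := summable_hat (t - 1) e
  have e1 : ∑' k : ℤ, (hat (t + 1 + k) : ℂ) * e k = e (-1) * ∑' k : ℤ, (hat (t + k) : ℂ) * e k := by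
    rw [← tsum_mul_left, ← (Equiv.addRight (1 : ℤ)).tsum_eq
      (fun k : ℤ => e (-1) * ((hat (t + k) : ℂ) * e k))]
    refine tsum_congr fun k => ?_
    simp only [Equiv.coe_addRight, hadd]
    push_cast
    rw [show t + (k + 1) = t + 1 + k by ring]
    linear_combination (-(hat (t + 1 + k) : ℂ) * e k) * hinv
  have e2 : ∑' k : ℤ, (hat (t - 1 + k) : ℂ) * e k = e 1 * ∑' k : ℤ, (hat (t + k) : ℂ) * e k := by
    rw [← tsum_mul_left, ← (Equiv.addRight (-1 : ℤ)).tsum_eq
      (fun k : ℤ => e 1 * ((hat (t + k) : ℂ) * e k))]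
    refine tsum_congr fun k => ?_
    simp only [Equiv.coe_addRight, hadd]
    push_cast
    rw [show t + (k + -1) = t - 1 + k by ring]
    linear_combination (-(hat (t - 1 + k) : ℂ) * e k) * hinv
  have : ∀ k : ℤ, (trap (t + k) : ℂ) * e k
      = (hat (t + 1 + k) : ℂ) * e k + (hat (t + k) : ℂ) * e k + (hat (t - 1 + k) : ℂ) * e k := by
    intro k
    unfold trap
    push_cast
    rw [show t + k + 1 = t + 1 + k by ring, show t + k - 1 = t - 1 + k by ring]
    ring
  change ∑' k : ℤ, (trap (t + k) : ℂ) * e k = 0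
  rw [tsum_congr this, (s1.add s0).tsum_add s2, s1.tsum_add s0, e1, e2]
  linear_combination (∑' k : ℤ, (hat (t + k) : ℂ) * e k) * hsum

theorem main : ∃ (φ : ℝ → ℂ) (d : ℤ →₀ ℂ), φ ≠ 0 ∧ Continuous φ ∧ HasCompactSupport φ ∧
    (∀ t, (φ t).im = 0 ∧ 0 ≤ (φ t).re) ∧ Dilation φ d ∧ symbol d 0 = 2 ∧ symbol d (1 / 2) = 0 ∧
    (¬ ∃ ξ₀ ∈ Set.Ico (0 : ℝ) 1, symbol d ξ₀ = 0 ∧ symbol d (ξ₀ + 1 / 2) = 0) ∧
    ∀ t : ℝ, ∃ ξ : ℝ, zak φ t ξ = 0 := by
  refine ⟨fun t => (trap t : ℂ), dd, ?_, ?_, ?_, ?_, dilation, ?_, ?_, ?_, fun t => ⟨_, zak_third t⟩⟩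
  · intro h
    have := congrFun h 0
    simp [trap, hat] at this
  · have := continuous_hat
    unfold trap
    fun_prop
  · refine HasCompactSupport.intro (isCompact_Icc (a := (-2 : ℝ)) (b := 2)) fun t ht => ?_
    rw [Set.mem_Icc, not_and_or, not_le, not_le] at ht
    unfold trap
    rcases ht with ht | ht
    · rw [hat_eq_zero, hat_eq_zero, hat_eq_zero] <;> [simp; skip; skip; skip] <;>
        rw [abs_of_neg (by linarith)] <;> linarith
    · rw [hat_eq_zero, hat_eq_zero, hat_eq_zero] <;> [simp; skip; skip; skip] <;>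
        rw [abs_of_pos (by linarith)] <;> linarith
  · intro t
    refine ⟨ofReal_im _, ?_⟩
    rw [ofReal_re]
    exact add_nonneg (add_nonneg (hat_nonneg _) (hat_nonneg _)) (hat_nonneg _)
  · rw [symbol_eq]; norm_num
  · have := exp_half 0
    rw [zero_add] at this
    rw [symbol_eq, this]; norm_num
  · rintro ⟨ξ, -, h⟩
    exact no_sym ξ h

end Pool.Agent.H405Z.Zak
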